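import Mathlib

/-!
Every finite simple graph is `1`-11-represented by a concatenation of permutations.

Idea: take the bubble sort from a linear order of the vertices to its reverse.  Each pair of
letters is exchanged exactly once, at a moment when the two letters are adjacent.  For an edge we
exchange once, for a non-edge we exchange three times in a row (which touches no other pair).
The number of occurrences of the pattern 11 for a pair is the number of changes of its order,
that is 1 for an edge and 3 for a non-edge.
-/

namespace Pool.Agent.Results.MP_eaeafc_co.EveryGraph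

universe u

variable {V : Type u}

/-- The number of occurrences of the consecutive pattern 11 in a word, i.e. the number of pairs
of adjacent positions carrying the same letter. -/
def occ11 [DecidableEq V] : List V → ℕ
  | [] => 0
  | [_] => 0
  | a :: b :: l => (if a = b then 1 else 0) + occ11 (b :: l)

/-- The subword `w|_{x,y}` of `w` obtained by deleting every letter other than `x` and `y`. -/
def subword [DecidableEq V] (w : List V) (x y : V) : List V :=
  w.filter (fun c => decide (c = x ∨ c = y))

/-- `w` `k`-11-represents the graph `G` on the vertex set `V`: every vertex occurs in `w`, and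
distinct `x`, `y` are adjacent exactly when `w|_{x,y}` has at most `k` occurrences of 11. -/
def Represents11 [DecidableEq V] (k : ℕ) (G : SimpleGraph V) (w : List V) : Prop :=
  (∀ v : V, v ∈ w) ∧ ∀ x y : V, x ≠ y → (G.Adj x y ↔ occ11 (subword w x y) ≤ k)

/-- A permutation of the vertex set, written as a word: every vertex occurs exactly once. -/
def IsPermWord (p : List V) : Prop := p.Nodup ∧ ∀ v : V, v ∈ p

/-- `w` is a concatenation `p_1 p_2 ... p_t` of permutations of `V`. -/
def IsConcatOfPerms (w : List V) : Prop :=
  ∃ ps : List (List V), ps ≠ [] ∧ (∀ p ∈ ps, IsPermWord p) ∧ w = ps.flatten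

section aux

variable [DecidableEq V]

theorem occ11_append_two (s : List V) (a b c d : V) (hab : a ≠ b) (hcd : c ≠ d) :
    occ11 (s ++ [a, b] ++ [c, d]) = occ11 (s ++ [a, b]) + (if b = c then 1 else 0) := by
  induction s with
  | nil => simp [occ11, hab, hcd]
  | cons e s ih =>
    cases s with
    | nil =>
      simp [occ11, hab, hcd]
    | cons f s =>
      have h1 : (e :: f :: s) ++ [a, b] ++ [c, d] = e :: f :: (s ++ [a, b] ++ [c, d]) := by simp
      have h2 : (e :: f :: s) ++ [a, b] = e :: f :: (s ++ [a, b]) := by simp
      rw [h1, h2]
      have h3 : (f :: s) ++ [a, b] ++ [c, d] = f :: (s ++ [a, b] ++ [c, d]) := by simp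
      have h4 : (f :: s) ++ [a, b] = f :: (s ++ [a, b]) := by simp
      rw [h3, h4] at ih
      simp only [occ11]
      rw [ih]
      omega

theorem subword_append (u v : List V) (x y : V) :
    subword (u ++ v) x y = subword u x y ++ subword v x y := by
  simp [subword]

/-- The subword of a permutation on a pair of distinct letters. -/
theorem subword_perm {p : List V} (hp : IsPermWord p) {x y : V} (hxy : x ≠ y) :
    subword p x y = [x, y] ∨ subword p x y = [y, x] := by
  have hnd : (subword p x y).Nodup := hp.1.filter _
  have hmem : ∀ c, c ∈ subword p x y ↔ c = x ∨ c = y := by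
    intro c
    simp [subword, hp.2 c]
  have hperm : (subword p x y).Perm [x, y] := by
    rw [List.perm_ext_iff_of_nodup hnd (by simp [hxy])]
    intro c
    rw [hmem]
    simp
  have hlen := hperm.length_eq
  match hL : subword p x y with
  | [] => simp [hL] at hlen
  | [a] => simp [hL] at hlen
  | [a, b] =>
    rw [hL] at hmem hnd
    have ha : a = x ∨ a = y := (hmem a).1 (by simp)
    have hb : b = x ∨ b = y := (hmem b).1 (by simp)
    have hne : a ≠ b := by
      intro h
      simp [h] at hnd
    rcases ha with ha | ha <;> rcases hb with hb | hb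
    · exact absurd (ha.trans hb.symm) hne
    · left; rw [ha, hb]
    · right; rw [ha, hb]
    · exact absurd (ha.trans hb.symm) hne
  | a :: b :: c :: l => simp [hL] at hlen

/-- State reached by the bubble sort: there is a concatenation of permutations whose last block
is `l` and whose 11-counts are given by `c`. -/
def Reach (l : List V) (c : V → V → ℕ) : Prop :=
  ∃ ps : List (List V), (∀ p ∈ ps, IsPermWord p) ∧ IsPermWord l ∧
    ∀ x y : V, x ≠ y → occ11 (subword (ps.flatten ++ l) x y) = c x y

theorem reach_start {l : List V} (hl : IsPermWord l) : Reach l (fun _ _ => 0) := by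
  refine ⟨[], by simp, hl, ?_⟩
  intro x y hxy
  simp only [List.flatten_nil, List.nil_append]
  rcases subword_perm hl hxy with h | h
  · rw [h]; simp [occ11, hxy]
  · rw [h]; simp [occ11, hxy.symm]

/-- indicator of the pair `{a, b}` -/
def ind (a b x y : V) : ℕ := if (x = a ∧ y = b) ∨ (x = b ∧ y = a) then 1 else 0

theorem reach_swap {u v : List V} {a b : V} {c : V → V → ℕ}
    (h : Reach (u ++ [a, b] ++ v) c) :
    Reach (u ++ [b, a] ++ v) (fun x y => c x y + ind a b x y) := by
  obtain ⟨ps, hps, hl, hc⟩ := h
  have hl' : IsPermWord (u ++ [b, a] ++ v) := by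
    have hperm : (u ++ [a, b] ++ v).Perm (u ++ [b, a] ++ v) := by
      apply List.Perm.append_right
      apply List.Perm.append_left
      exact List.Perm.swap b a []
    exact ⟨hperm.nodup_iff.1 hl.1, fun w => hperm.mem_iff.1 (hl.2 w)⟩
  refine ⟨ps ++ [u ++ [a, b] ++ v], ?_, hl', ?_⟩
  · intro p hp
    rcases List.mem_append.1 hp with hp | hp
    · exact hps p hp
    · rw [List.mem_singleton.1 hp]; exact hl
  intro x y hxy
  have hflat : (ps ++ [u ++ [a, b] ++ v]).flatten = ps.flatten ++ (u ++ [a, b] ++ v) := by
    simp
  rw [hflat, subword_append]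
  have hab : a ≠ b := by
    intro hab
    have h1 := hl.1
    rw [hab] at h1
    have : ([b, b] : List V).Nodup := by
      apply List.Nodup.sublist _ h1
      apply List.Sublist.trans _ (List.sublist_append_left _ _)
      exact List.sublist_append_right _ _
    simp at this
  have hc' := hc x y hxy
  rw [subword_append] at hc'
  by_cases hpair : (x = a ∧ y = b) ∨ (x = b ∧ y = a)
  · -- the swapped pair
    have hu : ∀ w ∈ u, w ≠ a ∧ w ≠ b := by
      intro w hw
      have h1 := hl.1
      rw [List.append_assoc, List.nodup_append] at h1
      have h2 := h1.2.2 w hw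
      exact ⟨h2 a (by simp), h2 b (by simp)⟩
    have hv : ∀ w ∈ v, w ≠ a ∧ w ≠ b := by
      intro w hw
      have h1 := hl.1
      rw [List.nodup_append] at h1
      have h2 := h1.2.2
      exact ⟨(h2 a (by simp) w hw).symm, (h2 b (by simp) w hw).symm⟩
    have hsu : subword u x y = [] := by
      simp only [subword, List.filter_eq_nil_iff]
      intro w hw
      have := hu w hw
      rcases hpair with ⟨rfl, rfl⟩ | ⟨rfl, rfl⟩ <;> simp [this.1, this.2]
    have hsv : subword v x y = [] := by
      simp only [subword, List.filter_eq_nil_iff]
      intro w hw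
      have := hv w hw
      rcases hpair with ⟨rfl, rfl⟩ | ⟨rfl, rfl⟩ <;> simp [this.1, this.2]
    have h1 : subword (u ++ [a, b] ++ v) x y = [a, b] := by
      rw [subword_append, subword_append, hsu, hsv]
      rcases hpair with ⟨rfl, rfl⟩ | ⟨rfl, rfl⟩ <;> simp [subword]
    have h2 : subword (u ++ [b, a] ++ v) x y = [b, a] := by
      rw [subword_append, subword_append, hsu, hsv]
      rcases hpair with ⟨rfl, rfl⟩ | ⟨rfl, rfl⟩ <;> simp [subword]
    rw [subword_append, h1, h2, occ11_append_two _ _ _ _ _ hab hab.symm]
    rw [h1] at hc'
    rw [hc']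
    simp [ind, hpair]
  · have hsame : subword (u ++ [b, a] ++ v) x y = subword (u ++ [a, b] ++ v) x y := by
      rw [subword_append, subword_append, subword_append, subword_append]
      congr 2
      simp only [subword, List.filter_cons, List.filter_nil]
      by_cases h1 : b = x ∨ b = y <;> by_cases h2 : a = x ∨ a = y
      · exfalso
        apply hpair
        rcases h1 with h1 | h1 <;> rcases h2 with h2 | h2
        · exact absurd (h2.trans h1.symm) hab
        · right; exact ⟨h1.symm, h2.symm⟩
        · left; exact ⟨h2.symm, h1.symm⟩
        · exact absurd (h2.trans h1.symm) hab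
      · simp [h1, h2]
      · simp [h1, h2]
      · simp [h1, h2]
    rw [subword_append, hsame]
    rcases subword_perm hl hxy with h | h
    · rw [h, occ11_append_two _ _ _ _ _ hxy hxy]
      rw [h] at hc'
      rw [hc']
      simp [ind, hpair, hxy.symm]
    · rw [h, occ11_append_two _ _ _ _ _ hxy.symm hxy.symm]
      rw [h] at hc'
      rw [hc']
      simp [ind, hpair, hxy]

theorem reach_congr {l : List V} {c c' : V → V → ℕ} (h : Reach l c)
    (hcc : ∀ x y, x ≠ y → c x y = c' x y) : Reach l c' := by
  obtain ⟨ps, h1, h2, h3⟩ := h
  exact ⟨ps, h1, h2, fun x y hxy => (h3 x y hxy).trans (hcc x y hxy)⟩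

variable (G : SimpleGraph V) [DecidableRel G.Adj]

/-- the number of exchanges used for a pair -/
def mult (x y : V) : ℕ := if G.Adj x y then 1 else 3

omit [DecidableEq V] in
theorem mult_comm (x y : V) : mult G x y = mult G y x := by
  simp [mult, G.adj_comm]

theorem reach_swap_mult {u v : List V} {a b : V} {c : V → V → ℕ}
    (h : Reach (u ++ [a, b] ++ v) c) :
    Reach (u ++ [b, a] ++ v) (fun x y => c x y + mult G a b * ind a b x y) := by
  by_cases hadj : G.Adj a b
  · have := reach_swap h
    simpa [mult, hadj] using this
  · have h1 := reach_swap (reach_swap (reach_swap h))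
    refine reach_congr h1 ?_
    intro x y _
    have hsymm : ind b a x y = ind a b x y := by
      simp only [ind]
      congr 1
      apply propext
      tauto
    simp only [mult, hadj, if_false, hsymm]
    ring

theorem reach_move (v : List V) : ∀ (u : List V) (a : V) (c : V → V → ℕ),
    Reach (u ++ a :: v) c → Reach (u ++ v ++ [a])
      (fun x y => c x y + mult G x y * (if (x = a ∧ y ∈ v) ∨ (y = a ∧ x ∈ v) then 1 else 0)) := by
  induction v with
  | nil =>
    intro u a c h
    refine reach_congr (c := c) ?_ ?_
    · simpa using h
    · intro x y _; simp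
  | cons b v ih =>
    intro u a c h
    have h0 : Reach (u ++ [a, b] ++ v) c := by simpa using h
    have hnd : (u ++ [a, b] ++ v).Nodup := by
      obtain ⟨_, _, hl, _⟩ := h0
      exact hl.1
    have hbv : b ∉ v := by
      intro hb
      rw [List.nodup_append] at hnd
      exact hnd.2.2 b (by simp) b hb rfl
    have h1 := reach_swap_mult G h0
    have h2 : Reach ((u ++ [b]) ++ a :: v) (fun x y => c x y + mult G a b * ind a b x y) := by
      simpa using h1
    have h3 := ih (u ++ [b]) a _ h2
    have h4 : u ++ [b] ++ v ++ [a] = u ++ (b :: v) ++ [a] := by simp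
    rw [h4] at h3
    refine reach_congr h3 ?_
    intro x y hxy
    simp only [ind, List.mem_cons]
    by_cases hxa : x = a
    · subst hxa
      by_cases hyb : y = b
      · subst hyb
        simp [hbv, hxy, hxy.symm]
      · simp [hyb, hxy.symm]
    · by_cases hya : y = a
      · subst hya
        by_cases hxb : x = b
        · subst hxb
          simp [hbv, hxy, mult_comm G x y]
        · simp [hxb, hxy]
      · simp [hxa, hya]

theorem reach_reverse (l : List V) : ∀ (u : List V) (c : V → V → ℕ),
    Reach (u ++ l) c → Reach (u ++ l.reverse)
      (fun x y => c x y + mult G x y * (if x ∈ l ∧ y ∈ l then 1 else 0)) := by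
  induction l with
  | nil =>
    intro u c h
    refine reach_congr (c := c) ?_ ?_
    · simpa using h
    · intro x y _; simp
  | cons a l ih =>
    intro u c h
    have hnd : (u ++ (a :: l)).Nodup := by
      obtain ⟨_, _, hl, _⟩ := h
      exact hl.1
    have hal : a ∉ l := by
      rw [List.nodup_append] at hnd
      exact (List.nodup_cons.1 hnd.2.1).1
    have h1 : Reach ((u ++ [a]) ++ l) c := by simpa using h
    have h2 := ih (u ++ [a]) c h1
    have h3 : Reach (u ++ a :: l.reverse)
      (fun x y => c x y + mult G x y * (if x ∈ l ∧ y ∈ l then 1 else 0)) := by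
      simpa using h2
    have h4 := reach_move G l.reverse u a _ h3
    have h5 : u ++ l.reverse ++ [a] = u ++ (a :: l).reverse := by simp
    rw [h5] at h4
    refine reach_congr h4 ?_
    intro x y hxy
    simp only [List.mem_reverse, List.mem_cons]
    by_cases hxa : x = a
    · subst hxa
      simp [hal, hxy.symm]
    · by_cases hya : y = a
      · subst hya
        simp [hal, hxy]
      · simp [hxa, hya]

end aux

/-- Every finite simple graph `G` is `1`-11-represented by a concatenation of permutations of its
vertex set. -/
theorem result : ∀ (V : Type u) [Fintype V] [DecidableEq V] (G : SimpleGraph V),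
    ∃ w : List V, IsConcatOfPerms w ∧ Represents11 1 G w := by
  classical
  intro V _ _ G
  have hp : IsPermWord (Finset.univ : Finset V).toList :=
    ⟨Finset.nodup_toList _, fun v => by simp⟩
  have h0 := reach_start hp
  have h1 : Reach ([] ++ (Finset.univ : Finset V).toList) (fun _ _ => 0) := by simpa using h0
  have h2 := reach_reverse G _ [] _ h1
  obtain ⟨ps, hps, hl, hc⟩ := h2
  refine ⟨ps.flatten ++ ([] ++ (Finset.univ : Finset V).toList.reverse), ⟨ps ++
    [[] ++ (Finset.univ : Finset V).toList.reverse], by simp, ?_, by simp⟩, ?_, ?_⟩
  · intro p hp'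
    rcases List.mem_append.1 hp' with h | h
    · exact hps p h
    · rw [List.mem_singleton.1 h]; exact hl
  · intro v
    simp
  · intro x y hxy
    rw [hc x y hxy]
    by_cases hadj : G.Adj x y
    · simp [mult, hadj]
    · simp [mult, hadj]

end Pool.Agent.Results.MP_eaeafc_co.EveryGraph
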